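import Pool.Agent.Helper6.OCK.Tv
import Pool.Agent.Helper17.OCK.Flag

/-!
# OC, block K3a: the flags of the stabilisers of isotropic flags in the symplectic group
-/

set_option autoImplicit false

namespace Pool.Agent.Helper6.OCK

open Matrix
open Pool.Agent.Helper72.OC
open Pool.Agent.Helper17.OCK (cellHom cellHom_surj cellHom_ker cellHom_X_lt tt tt_self tt_ne)

variable {m k : ℕ}

section Vec

variable {M : ℕ} (E : Fin M ≃ {a : Fin m ⊕ Fin m // k ≤ idx a})

/-- the vector with given coordinates -/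
def vecT {R : Type} [CommRing R] (t : Fin M → R) : Fin m ⊕ Fin m → R :=
  fun a => if h : k ≤ idx a then t (E.symm ⟨a, h⟩) else 0

theorem vecT_E {R : Type} [CommRing R] (t : Fin M → R) (i : Fin M) : vecT E t (E i).1 = t i := by
  rw [vecT, dif_pos (E i).2]
  simp

theorem vecT_hi {R : Type} [CommRing R] (t : Fin M → R) : Hi k (vecT E t) := by
  intro a ha
  rw [vecT, dif_neg (not_le.2 ha)]

theorem map_vecT {R R' : Type} [CommRing R] [CommRing R'] (f : R →+* R') (t : Fin M → R) :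
    (fun a => f (vecT E t a)) = vecT E fun i => f (t i) := by
  funext a
  simp only [vecT]
  split_ifs <;> simp

end Vec

/-- in the rows of index at least `k` the column `o = k` is multiplied by the entry `q_oo` -/
theorem mul_col {R : Type} [CommRing R] {o : Fin m} (ho : (o : ℕ) = k)
    {g q : Matrix.symplecticGroup (Fin m) R} (hg : g ∈ SpF m k R) (hq : q ∈ SpF m (k + 1) R)
    {a : Fin m ⊕ Fin m} (ha : k ≤ idx a) :
    (g * q).1 a (.inl o) = g.1 a (.inl o) * q.1 (.inl o) (.inl o) := by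
  have h0 : (g * q).1 = g.1 * q.1 := rfl
  rw [h0, Matrix.mul_apply]
  apply Finset.sum_eq_single
  · rintro (t | t) _ ht
    · rcases lt_or_ge (t : ℕ) k with h | h
      · have h1 : g.1 a (.inl t) = 0 := by
          rcases a with a | a
          · exact ((mem_SpF.1 hg).1 t h).1 a (Fin.lt_def.2 (lt_of_lt_of_le h ha))
          · exact ((mem_SpF.1 hg).1 t h).2 a
        rw [h1, zero_mul]
      · have h1 : o < t := by
          rw [Fin.lt_def]
          have : (t : ℕ) ≠ o := fun h2 => ht (by rw [Fin.ext h2])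
          omega
        rw [((mem_SpF.1 hq).1 o (by omega)).1 t h1, mul_zero]
    · rw [((mem_SpF.1 hq).1 o (by omega)).2 t, mul_zero]
  · intro h
    exact absurd (Finset.mem_univ _) h

/-- the parabolic part of an element of the chart -/
theorem sec_inv_mul_mem {R : Type} [CommRing R] {o : Fin m} (ho : (o : ℕ) = k)
    {j : Fin m ⊕ Fin m} (hj : k ≤ idx j) {v : Fin m ⊕ Fin m → R} (hv : Hi k v) (hvj : v j = 1)
    {g : Matrix.symplecticGroup (Fin m) R} (hg : g ∈ SpF m k R) (c : Rˣ)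
    (h : ∀ a, k ≤ idx a → g.1 a (.inl o) = v a * c) : (sec o j v)⁻¹ * g ∈ SpF m (k + 1) R := by
  have h1 : Lo k (g.1 *ᵥ ee R o - (c : R) • v) := by
    refine ⟨fun i hi => ?_, fun i => ?_⟩
    · rw [Pi.sub_apply, mulVec_ee, h (.inl i) hi, Pi.smul_apply, smul_eq_mul]
      ring
    · rw [Pi.sub_apply, mulVec_ee]
      rcases lt_or_ge (i : ℕ) k with hi | hi
      · rw [inr_eq_zero hg o i hi, Pi.smul_apply, hv (.inr i) hi]
        simp
      · rw [h (.inr i) hi, Pi.smul_apply, smul_eq_mul]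
        ring
  have hs : sec o j v ∈ SpF m k R := sec_mem ho hj hv
  refine mem_SpF_succ ho (mul_mem (inv_mem hs) hg) c _
    (h1.mulVec (mem_SpF.1 (inv_mem hs)).1) ?_
  have h2 : ((sec o j v)⁻¹ * g).1 *ᵥ ee R o = ((sec o j v)⁻¹).1 *ᵥ (g.1 *ᵥ ee R o) := by
    rw [mulVec_mulVec]
    rfl
  have h3 : ((sec o j v)⁻¹).1 *ᵥ v = ee R o := by
    have h4 := mulVec_inv_mulVec (sec o j v) (ee R o)
    rwa [sec_mulVec o j v hvj] at h4
  rw [h2, mulVec_sub, mulVec_smul, h3, sub_add_cancel]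

/-- the rows of index at least `k` of the column `k` are unimodular -/
theorem span_col {R : Type} [CommRing R] {o : Fin m} (ho : (o : ℕ) = k)
    {g : Matrix.symplecticGroup (Fin m) R} (hg : g ∈ SpF m k R) (I : Ideal R)
    (hI : ∀ a, k ≤ idx a → g.1 a (.inl o) ∈ I) : I = ⊤ := by
  rw [Ideal.eq_top_iff_one]
  have h1 : (g⁻¹).1 * g.1 = 1 := congrArg Subtype.val (inv_mul_cancel g)
  have h2 : ((g⁻¹).1 * g.1) (.inl o) (.inl o) = 1 := by rw [h1, Matrix.one_apply_eq]
  rw [← h2, Matrix.mul_apply]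
  refine Ideal.sum_mem _ fun a _ => ?_
  rcases lt_or_ge (idx a) k with ha | ha
  · rcases a with a | a
    · rw [((mem_SpF.1 hg).2 a ha).1 o (Fin.lt_def.2 (by simp only [idx] at ha; omega)), zero_mul]
      exact I.zero_mem
    · rw [inr_eq_zero hg o a ha, mul_zero]
      exact I.zero_mem
  · exact I.mul_mem_left _ (hI a ha)

/-- The stabilisers of the isotropic flags form a chain of flags. -/
theorem flag_SpF {Λ : Type} [CommRing Λ] {G Q : GSch Λ} (hk : k < m) (hG : IsSpF m k G)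
    (hQ : IsSpF m (k + 1) Q) :
    ∃ f : Flag Q G, Ideal.span (Set.range fun j => f.w (f.e j) G.gen) = ⊤ ∧
      ∃ (n : ℕ) (a : ∀ j, letI := f.ringΓ j; letI := f.algΓ j;
        f.Γ j ≃ₐ[Λ] MvPolynomial (Fin n) Λ), ∀ i j, ∃ d, MvPolynomial.coeff d (a j
          (letI := f.ringΓ j; letI := f.algΓ j; f.w (f.e i) (f.σ j))) = 1 := by
  classical
  obtain ⟨eG, hG⟩ := hG
  obtain ⟨eQ, hQ⟩ := hQ
  obtain ⟨o, ho⟩ : ∃ o : Fin m, (o : ℕ) = k := ⟨⟨k, hk⟩, rfl⟩
  obtain ⟨M, ⟨E0⟩⟩ := Finite.exists_equiv_fin {a : Fin m ⊕ Fin m // k ≤ idx a}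
  obtain ⟨E, -⟩ : ∃ E : Fin M ≃ {a : Fin m ⊕ Fin m // k ≤ idx a}, True := ⟨E0.symm, trivial⟩
  -- the inclusion
  obtain ⟨inc, hinc⟩ : ∃ inc : ∀ {R : Type} [CommRing R] [Algebra Λ R], Q.Pt R →* G.Pt R,
      ∀ {R : Type} [CommRing R] [Algebra Λ R] (q : Q.Pt R), (eG R (inc q)).1 = (eQ R q).1 :=
    ⟨fun {R} _ _ => (eG R).symm.toMonoidHom.comp
      ((Subgroup.inclusion (SpF_mono (Nat.le_succ k) R)).comp (eQ R).toMonoidHom),
      fun {R} _ _ q => congrArg Subtype.val ((eG R).apply_symm_apply _)⟩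
  have hmul : ∀ (R : Type) [CommRing R] [Algebra Λ R] (g h : G.Pt R),
      (eG R (g * h)).1 = (eG R g).1 * (eG R h).1 := by
    intro R _ _ g h
    rw [map_mul]
    rfl
  have hcol : ∀ (R : Type) [CommRing R] [Algebra Λ R] (g : G.Pt R) (q : Q.Pt R) (i : Fin M),
      (eG R (g * inc q)).1.1 (E i).1 (.inl o) = (eG R g).1.1 (E i).1 (.inl o) *
        (eQ R q).1.1 (.inl o) (.inl o) := by
    intro R _ _ g q i
    rw [hmul, hinc]
    exact mul_col ho (eG R g).2 (eQ R q).2 (E i).2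
  have hnat : ∀ (R R' : Type) [CommRing R] [Algebra Λ R] [CommRing R'] [Algebra Λ R']
      (f : R →ₐ[Λ] R') (g : G.Pt R) (i j : Fin m ⊕ Fin m),
      (eG R' (G.map f g)).1.1 i j = f ((eG R g).1.1 i j) := by
    intro R R' _ _ _ _ f g i j
    rw [hG]
    rfl
  -- the sections
  obtain ⟨σ, hσ⟩ : ∃ σ : ∀ j : Fin M, G.Pt (MvPolynomial {i : Fin M // i ≠ j} Λ),
      ∀ j, (eG _ (σ j)).1 = sec o (E j).1 (vecT E (tt Λ j)) :=
    ⟨fun j => (eG _).symm ⟨_, sec_mem ho (E j).2 (vecT_hi E (tt Λ j))⟩, fun j => by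
      rw [MulEquiv.apply_symm_apply]⟩
  have hvj : ∀ j : Fin M, vecT E (tt Λ j) (E j).1 = 1 := fun j => by rw [vecT_E, tt_self]
  have hσE : ∀ (j i : Fin M), (eG _ (σ j)).1.1 (E i).1 (.inl o) = tt Λ j i := by
    intro j i
    have h1 := mulVec_ee (sec o (E j).1 (vecT E (tt Λ j))).1 o (E i).1
    rw [sec_mulVec _ _ _ (hvj j), vecT_E] at h1
    rw [hσ]
    exact h1.symm
  have hσmap : ∀ (j : Fin M) (R : Type) [CommRing R] [Algebra Λ R]
      (u : MvPolynomial {i : Fin M // i ≠ j} Λ →ₐ[Λ] R),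
      (eG R (G.map u (σ j))).1 = sec o (E j).1 (vecT E fun i => u (tt Λ j i)) := by
    intro j R _ _ u
    apply Subtype.ext
    rw [hG, hσ]
    have h1 := map_sec (u : MvPolynomial {i : Fin M // i ≠ j} Λ →+* R) o (E j).1
      (vecT E (tt Λ j))
    rw [map_vecT] at h1
    exact h1
  have en : ∀ j : Fin M, {i : Fin M // i ≠ j} ≃ Fin (M - 1) := fun j =>
    Fintype.equivFinOfCardEq (by
      rw [Fintype.card_subtype_compl, Fintype.card_fin, Fintype.card_subtype_eq])
  refine ⟨{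
    inc := inc
    inc_nat := ?_
    m := M
    w := fun i {R} _ _ g => (eG R g).1.1 (E i).1 (.inl o)
    w_nat := fun i {R R'} _ _ _ _ f g => hnat R R' f g _ _
    χ := fun {R} _ _ q => (eQ R q).1.1 (.inl o) (.inl o)
    w_mul := fun i {R} _ _ g q => hcol R g q i
    c := M
    pos := Fin.pos (E.symm ⟨.inl o, ho.ge⟩)
    e := id
    cover := ?_
    Γ := fun j => MvPolynomial {i : Fin M // i ≠ j} Λ
    ringΓ := fun j => inferInstance
    algΓ := fun j => inferInstance
    σ := σ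
    w_σ := ?_
    gen := ?_
    chart := ?_
    dim := fun j => M - 1 - j
    cell := fun j => cellHom Λ j
    cell_surj := fun j => cellHom_surj j
    cell_zero := ?_
    cell_ker := ?_ }, ?_, M - 1, fun j => MvPolynomial.renameEquiv Λ (en j), fun i j => ?_⟩
  · intro R R' _ _ _ _ f q
    apply (eG R').injective
    apply Subtype.ext
    apply Subtype.ext
    rw [hG, hinc, hinc, hQ]
  · intro i
    refine ⟨0, fun j => if j = i then 1 else 0, fun j => ?_, fun {R} _ _ g => ?_⟩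
    · show (if j = i then (1 : MvPolynomial (Fin M) Λ) else 0).IsHomogeneous 0
      split_ifs
      · exact MvPolynomial.isHomogeneous_one _ _
      · exact MvPolynomial.isHomogeneous_zero _ _ _
    · rw [Finset.sum_eq_single i]
      · simp
      · intro j _ hj
        simp [hj]
      · intro h
        exact absurd (Finset.mem_univ _) h
  · intro j
    exact (hσE j j).trans (tt_self j)
  · intro j
    rw [eq_top_iff, ← MvPolynomial.adjoin_range_X]
    apply Algebra.adjoin_mono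
    rintro _ ⟨i, rfl⟩
    exact ⟨i.1, (hσE j i.1).trans (tt_ne j i)⟩
  · intro j R _ _ g hg
    obtain ⟨c, hc⟩ := hg
    obtain ⟨t, ht⟩ : ∃ t : Fin M → R, t = fun i => (eG R g).1.1 (E i).1 (.inl o) * (c⁻¹ : Rˣ) :=
      ⟨_, rfl⟩
    have hc' : (eG R g).1.1 (E j).1 (.inl o) = c := hc.symm
    have ht' : ∀ i, t i = (eG R g).1.1 (E i).1 (.inl o) * (c⁻¹ : Rˣ) := fun i => by rw [ht]
    have htj : t j = 1 := by rw [ht', hc', Units.mul_inv]
    have htg : ∀ i, (eG R g).1.1 (E i).1 (.inl o) = t i * c := by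
      intro i
      rw [ht', Units.inv_mul_cancel_right]
    obtain ⟨u, hu⟩ : ∃ u : MvPolynomial {i : Fin M // i ≠ j} Λ →ₐ[Λ] R,
        ∀ i, u (tt Λ j i) = t i := by
      refine ⟨MvPolynomial.aeval fun i => t i.1, fun i => ?_⟩
      by_cases h : i = j
      · subst h
        rw [tt_self, map_one, htj]
      · rw [tt_ne j ⟨i, h⟩, MvPolynomial.aeval_X]
    have hsg : (eG R (G.map u (σ j))).1 = sec o (E j).1 (vecT E t) := by
      rw [hσmap]
      congr 2
      funext i
      exact hu i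
    have hvt : vecT E t (E j).1 = 1 := by rw [vecT_E, htj]
    have hq : (sec o (E j).1 (vecT E t))⁻¹ * (eG R g).1 ∈ SpF m (k + 1) R := by
      refine sec_inv_mul_mem ho (E j).2 (vecT_hi E t) hvt (eG R g).2 c fun a ha => ?_
      have h1 := htg (E.symm ⟨a, ha⟩)
      rw [Equiv.apply_symm_apply] at h1
      rw [h1, vecT, dif_pos ha]
    refine ⟨⟨u, (eQ R).symm ⟨_, hq⟩⟩, ?_, ?_⟩
    · apply (eG R).injective
      apply Subtype.ext
      show (eG R g).1 = (eG R (G.map u (σ j) * inc ((eQ R).symm ⟨_, hq⟩))).1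
      rw [hmul, hinc, MulEquiv.apply_symm_apply, hsg, mul_inv_cancel_left]
    · rintro ⟨u', q'⟩ h
      simp only at h
      have hw : ∀ i, (eG R g).1.1 (E i).1 (.inl o) = u' (tt Λ j i) *
          (eQ R q').1.1 (.inl o) (.inl o) := by
        intro i
        conv_lhs => rw [h]
        rw [hcol, hnat, hσE]
      have hcq : (eQ R q').1.1 (.inl o) (.inl o) = c := by
        have := hw j
        rw [tt_self, map_one, one_mul] at this
        rw [← this, hc']
      have hu' : u' = u := by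
        apply MvPolynomial.algHom_ext
        intro i
        have h3 := hw i.1
        rw [hcq, htg] at h3
        have h4 := c.isUnit.mul_right_cancel h3
        rw [← tt_ne, hu, h4]
      subst hu'
      have h5 : inc q' = inc ((eQ R).symm ⟨_, hq⟩) := by
        apply mul_left_cancel (a := G.map u' (σ j))
        rw [← h]
        apply (eG R).injective
        apply Subtype.ext
        show (eG R g).1 = (eG R (G.map u' (σ j) * inc ((eQ R).symm ⟨_, hq⟩))).1
        rw [hmul, hinc, MulEquiv.apply_symm_apply, hsg, mul_inv_cancel_left]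
      have h6 : eQ R q' = eQ R ((eQ R).symm ⟨_, hq⟩) := by
        apply Subtype.ext
        rw [← hinc, ← hinc, h5]
      have h7 := (eQ R).injective h6
      rw [h7]
  · intro j l hl
    have h1 := hσE j l
    rw [show (eG _ (σ j)).1.1 (E (id l)).1 (.inl o) = tt Λ j l from h1, tt_ne j ⟨l, hl.ne⟩]
    exact cellHom_X_lt j ⟨l, hl.ne⟩ hl
  · intro j f hf
    apply Ideal.le_radical
    apply cellHom_ker j f hf
    intro i hi
    apply Ideal.subset_span
    exact ⟨i.1, hi, ((hσE j i.1).trans (tt_ne j i)).symm⟩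
  · refine span_col ho (eG _ G.gen).2 _ fun a ha => Ideal.subset_span ?_
    refine ⟨E.symm ⟨a, ha⟩, ?_⟩
    show (eG _ G.gen).1.1 (E (E.symm ⟨a, ha⟩)).1 (.inl o) = _
    rw [Equiv.apply_symm_apply]
  · show ∃ d, MvPolynomial.coeff d (MvPolynomial.renameEquiv Λ (en j)
      ((eG _ (σ j)).1.1 (E i).1 (.inl o))) = 1
    rw [hσE]
    by_cases h : i = j
    · subst h
      refine ⟨0, ?_⟩
      rw [tt_self, map_one, MvPolynomial.coeff_zero_one]
    · rw [tt_ne j ⟨i, h⟩]
      refine ⟨Finsupp.single (en j ⟨i, h⟩) 1, ?_⟩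
      rw [MvPolynomial.renameEquiv_apply, MvPolynomial.rename_X, MvPolynomial.coeff_X, if_pos rfl]

end Pool.Agent.Helper6.OCK
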