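import Pool.Agent.Helper72.OC.SpDefs

/-!
# OC, block K3a: the stabilisers of isotropic flags in the symplectic group are representable
-/

set_option autoImplicit false

namespace Pool.Agent.Helper6.OCK

open Matrix
open Pool.Agent.Helper72.OC

variable (m k : ℕ) (Λ : Type) [CommRing Λ]

section Eqs

variable {m} {R R' : Type} [CommRing R] [CommRing R']

/-- the defect of being symplectic -/
def eqS (g : Matrix (Fin m ⊕ Fin m) (Fin m ⊕ Fin m) R) :
    Matrix (Fin m ⊕ Fin m) (Fin m ⊕ Fin m) R := g * J (Fin m) R * gᵀ - J (Fin m) R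

/-- the symplectic inverse -/
def eqI (g : Matrix (Fin m ⊕ Fin m) (Fin m ⊕ Fin m) R) :
    Matrix (Fin m ⊕ Fin m) (Fin m ⊕ Fin m) R := (-J (Fin m) R) * gᵀ * J (Fin m) R

theorem map_eqS (f : R →+* R') (g : Matrix (Fin m ⊕ Fin m) (Fin m ⊕ Fin m) R) :
    (eqS g).map f = eqS (g.map f) := by
  rw [eqS, eqS, Matrix.map_sub _ (map_sub f), Matrix.map_mul, Matrix.map_mul, Matrix.map_J,
    transpose_map]

theorem map_eqI (f : R →+* R') (g : Matrix (Fin m ⊕ Fin m) (Fin m ⊕ Fin m) R) :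
    (eqI g).map f = eqI (g.map f) := by
  rw [eqI, eqI, Matrix.map_mul, Matrix.map_mul, Matrix.map_neg _ (map_neg f), Matrix.map_J,
    transpose_map]

theorem mem_of_eqS {g : Matrix (Fin m ⊕ Fin m) (Fin m ⊕ Fin m) R} (h : eqS g = 0) :
    g ∈ Matrix.symplecticGroup (Fin m) R :=
  SymplecticGroup.mem_iff.2 (sub_eq_zero.1 h)

theorem eqS_of_mem {g : Matrix (Fin m ⊕ Fin m) (Fin m ⊕ Fin m) R}
    (h : g ∈ Matrix.symplecticGroup (Fin m) R) : eqS g = 0 :=
  sub_eq_zero.2 (SymplecticGroup.mem_iff.1 h)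

theorem coe_inv_eqI (g : Matrix.symplecticGroup (Fin m) R) : (g⁻¹).1 = eqI g.1 :=
  SymplecticGroup.coe_inv g

end Eqs

variable {m k} in
theorem SpF_ext {R : Type} [CommRing R] {g h : SpF m k R}
    (H : ∀ a b, g.1.1 a b = h.1.1 a b) : g = h :=
  Subtype.ext (Subtype.ext (Matrix.ext H))

/-- the induced map of groups -/
def mapSpF {R R' : Type} [CommRing R] [CommRing R'] (f : R →+* R') : SpF m k R →* SpF m k R' where
  toFun g := ⟨⟨g.1.1.map f, SymplecticGroup.map_mem g.1.2 f⟩, g.2.1.map f, by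
    rw [coe_inv_eqI, ← map_eqI, ← coe_inv_eqI]
    exact g.2.2.map f⟩
  map_one' := Subtype.ext (Subtype.ext (Matrix.map_one f f.map_zero f.map_one))
  map_mul' a b := Subtype.ext (Subtype.ext (Matrix.map_mul))

/-- the generic matrix -/
noncomputable def YY : Matrix (Fin m ⊕ Fin m) (Fin m ⊕ Fin m)
    (MvPolynomial ((Fin m ⊕ Fin m) × (Fin m ⊕ Fin m)) Λ) :=
  Matrix.of fun a b => MvPolynomial.X (a, b)

/-- the positions which vanish for the stabiliser of the flag -/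
def Pos (a b : Fin m ⊕ Fin m) : Prop :=
  ∃ i : Fin m, b = .inl i ∧ (i : ℕ) < k ∧ ((∃ j : Fin m, a = .inl j ∧ i < j) ∨ ∃ j, a = .inr j)

variable {m k} in
theorem flagStab_iff_pos {R : Type} [CommRing R] {g : Matrix (Fin m ⊕ Fin m) (Fin m ⊕ Fin m) R} :
    FlagStab m k g ↔ ∀ a b, Pos m k a b → g a b = 0 := by
  constructor
  · rintro h a b ⟨i, rfl, hi, ⟨j, rfl, hj⟩ | ⟨j, rfl⟩⟩
    · exact (h i hi).1 j hj
    · exact (h i hi).2 j
  · intro h i hi
    exact ⟨fun j hj => h _ _ ⟨i, rfl, hi, Or.inl ⟨j, rfl, hj⟩⟩,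
      fun j => h _ _ ⟨i, rfl, hi, Or.inr ⟨j, rfl⟩⟩⟩

/-- the equations -/
noncomputable def rel : Set (MvPolynomial ((Fin m ⊕ Fin m) × (Fin m ⊕ Fin m)) Λ) :=
  (Set.range fun p : (Fin m ⊕ Fin m) × (Fin m ⊕ Fin m) => eqS (YY m Λ) p.1 p.2) ∪
  (Set.range fun p : {p : (Fin m ⊕ Fin m) × (Fin m ⊕ Fin m) // Pos m k p.1 p.2} =>
    YY m Λ p.1.1 p.1.2) ∪
  (Set.range fun p : {p : (Fin m ⊕ Fin m) × (Fin m ⊕ Fin m) // Pos m k p.1 p.2} =>
    eqI (YY m Λ) p.1.1 p.1.2)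

/-- the coordinate ring -/
abbrev OO : Type := MvPolynomial ((Fin m ⊕ Fin m) × (Fin m ⊕ Fin m)) Λ ⧸ Ideal.span (rel m k Λ)

theorem finitePresentation_OO : Algebra.FinitePresentation Λ (OO m k Λ) := by
  refine Algebra.FinitePresentation.quotient ?_
  refine Submodule.fg_span ?_
  exact ((Set.finite_range _).union (Set.finite_range _)).union (Set.finite_range _)

/-- the projection -/
noncomputable abbrev mkO : MvPolynomial ((Fin m ⊕ Fin m) × (Fin m ⊕ Fin m)) Λ →ₐ[Λ] OO m k Λ :=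
  Ideal.Quotient.mkₐ Λ (Ideal.span (rel m k Λ))

/-- the universal matrix -/
noncomputable def genM : Matrix (Fin m ⊕ Fin m) (Fin m ⊕ Fin m) (OO m k Λ) :=
  (YY m Λ).map (mkO m k Λ)

theorem genM_symp : genM m k Λ ∈ Matrix.symplecticGroup (Fin m) (OO m k Λ) := by
  apply mem_of_eqS
  have h := map_eqS (mkO m k Λ : _ →+* OO m k Λ) (YY m Λ)
  refine Eq.trans h.symm ?_
  ext a b
  exact Ideal.Quotient.eq_zero_iff_mem.2 (Ideal.subset_span (Or.inl (Or.inl ⟨(a, b), rfl⟩)))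

/-- the universal element -/
noncomputable def genP : SpF m k (OO m k Λ) :=
  ⟨⟨genM m k Λ, genM_symp m k Λ⟩, flagStab_iff_pos.2 fun a b h =>
    Ideal.Quotient.eq_zero_iff_mem.2 (Ideal.subset_span (Or.inl (Or.inr ⟨⟨(a, b), h⟩, rfl⟩))),
  flagStab_iff_pos.2 fun a b h => by
    rw [coe_inv_eqI]
    have h1 := map_eqI (mkO m k Λ : _ →+* OO m k Λ) (YY m Λ)
    have h2 := congrFun (congrFun h1 a) b
    refine Eq.trans h2.symm ?_
    exact Ideal.Quotient.eq_zero_iff_mem.2 (Ideal.subset_span (Or.inr ⟨⟨(a, b), h⟩, rfl⟩))⟩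

variable {m k Λ}

theorem map_YY {R : Type} [CommRing R] [Algebra Λ R]
    (g : Matrix (Fin m ⊕ Fin m) (Fin m ⊕ Fin m) R) :
    (YY m Λ).map (MvPolynomial.aeval (R := Λ) fun p : (Fin m ⊕ Fin m) × (Fin m ⊕ Fin m) =>
      g p.1 p.2) = g := by
  ext a b
  rw [Matrix.map_apply, YY, Matrix.of_apply, MvPolynomial.aeval_X]

theorem aeval_rel {R : Type} [CommRing R] [Algebra Λ R] (g : SpF m k R)
    (p : MvPolynomial ((Fin m ⊕ Fin m) × (Fin m ⊕ Fin m)) Λ) (hp : p ∈ Ideal.span (rel m k Λ)) :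
    MvPolynomial.aeval (R := Λ) (fun p : (Fin m ⊕ Fin m) × (Fin m ⊕ Fin m) => g.1.1 p.1 p.2) p
      = 0 := by
  have h : Ideal.span (rel m k Λ) ≤ RingHom.ker (MvPolynomial.aeval (R := Λ)
      (fun p : (Fin m ⊕ Fin m) × (Fin m ⊕ Fin m) => g.1.1 p.1 p.2)) := by
    rw [Ideal.span_le]
    rintro _ ((⟨⟨a, b⟩, rfl⟩ | ⟨⟨⟨a, b⟩, h⟩, rfl⟩) | ⟨⟨⟨a, b⟩, h⟩, rfl⟩)
    · have h1 := map_eqS (MvPolynomial.aeval (R := Λ)
        (fun p : (Fin m ⊕ Fin m) × (Fin m ⊕ Fin m) => g.1.1 p.1 p.2) :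
          MvPolynomial ((Fin m ⊕ Fin m) × (Fin m ⊕ Fin m)) Λ →+* R) (YY m Λ)
      have h2 := congrFun (congrFun h1 a) b
      refine Eq.trans h2 ?_
      have h3 := map_YY (Λ := Λ) g.1.1
      exact (congrFun (congrFun ((congrArg eqS h3).trans (eqS_of_mem g.1.2)) a) b)
    · have h3 := map_YY (Λ := Λ) g.1.1
      exact (congrFun (congrFun h3 a) b).trans (flagStab_iff_pos.1 g.2.1 a b h)
    · have h1 := map_eqI (MvPolynomial.aeval (R := Λ)
        (fun p : (Fin m ⊕ Fin m) × (Fin m ⊕ Fin m) => g.1.1 p.1 p.2) :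
          MvPolynomial ((Fin m ⊕ Fin m) × (Fin m ⊕ Fin m)) Λ →+* R) (YY m Λ)
      have h2 := congrFun (congrFun h1 a) b
      refine Eq.trans h2 ?_
      have h3 := map_YY (Λ := Λ) g.1.1
      refine (congrFun (congrFun (congrArg eqI h3) a) b).trans ?_
      have h4 := flagStab_iff_pos.1 g.2.2 a b h
      rw [coe_inv_eqI] at h4
      exact h4
  exact h hp

/-- the homomorphism of an element -/
noncomputable def evP {R : Type} [CommRing R] [Algebra Λ R] (g : SpF m k R) : OO m k Λ →ₐ[Λ] R :=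
  Ideal.Quotient.liftₐ _ (MvPolynomial.aeval (R := Λ)
    (fun p : (Fin m ⊕ Fin m) × (Fin m ⊕ Fin m) => g.1.1 p.1 p.2)) (aeval_rel g)

theorem evP_genM {R : Type} [CommRing R] [Algebra Λ R] (g : SpF m k R) (a b : Fin m ⊕ Fin m) :
    evP g (genM m k Λ a b) = g.1.1 a b := by
  show evP g (Ideal.Quotient.mk _ (MvPolynomial.X (a, b))) = g.1.1 a b
  show MvPolynomial.aeval (R := Λ) (fun p : (Fin m ⊕ Fin m) × (Fin m ⊕ Fin m) => g.1.1 p.1 p.2)
    (MvPolynomial.X (a, b)) = g.1.1 a b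
  rw [MvPolynomial.aeval_X]

variable (m k Λ)

/-- the group scheme of the stabilisers -/
noncomputable def schSpF : GSch Λ where
  Pt := fun R _ _ => SpF m k R
  grp := fun R _ _ => inferInstance
  map := fun {R R'} _ _ _ _ f => mapSpF m k (f : R →+* R')
  O := OO m k Λ
  ring := inferInstance
  alg := inferInstance
  gen := genP m k Λ
  ev := fun {R} _ _ g => evP g
  map_ev := fun {R} _ _ g => SpF_ext fun a b => evP_genM g a b
  ev_map := fun {R} _ _ f => by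
    apply Ideal.Quotient.algHom_ext
    apply MvPolynomial.algHom_ext
    rintro ⟨a, b⟩
    exact evP_genM (mapSpF m k (f : OO m k Λ →+* R) (genP m k Λ)) a b
  map_comp := fun {R R' R''} _ _ _ _ _ _ f f' g => rfl

theorem isSpF_sch : IsSpF m k (schSpF m k Λ) :=
  ⟨fun R _ _ => MulEquiv.refl _, fun R R' _ _ _ _ f g => rfl⟩

end Pool.Agent.Helper6.OCK
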