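import Pool.Agent.Helper6.OCK.FlagSp
import Pool.Agent.Helper6.OCK.Rep
import Pool.Agent.Helper72.OC.SpBorel
import Pool.Agent.Helper72.OC.GoodFlag
import Pool.Agent.Helper72.OC.Gs

/-!
# OC, block K3: the symplectic groups are flagged
-/

set_option autoImplicit false

namespace Pool.Agent.Helper6.OCK

open Pool.Agent.Helper72.OC
open Pool.Agent.Helper72.OB (Pre Gp)

/-- All stabilisers of isotropic flags in `Sp_2m` are flagged if the group of upper triangular
matrices is. -/
theorem flagged_schSpF {m : ℕ} {Λ : Type} [CommRing Λ] {H : GSch Λ} (hH : IsGs False (leP m) H)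
    (hF : Flagged H) (d : ℕ) : ∀ k, k + d = m →
      (schSpF m k Λ).Good ∧ Flagged (schSpF m k Λ) := by
  induction d with
  | zero =>
    intro k hk
    rw [add_zero] at hk
    subst hk
    obtain ⟨e, he⟩ := hH
    have h1 : Flagged (schSpF k k Λ) := flagged_SpB (isSpF_sch k k Λ)
      (fun R _ _ => (e R).trans
        { toFun := fun g => g.1
          invFun := fun g => ⟨g, fun h => h.elim⟩
          left_inv := fun g => rfl
          right_inv := fun g => rfl
          map_mul' := fun g h => rfl })
      (fun R R' _ _ _ _ f g => congrArg Subtype.val (he R R' f g)) hF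
    exact ⟨h1.good80, h1⟩
  | succ d ih =>
    intro k hk
    obtain ⟨h1, h2⟩ := ih (k + 1) (by omega)
    obtain ⟨f, hspan, n, a, hmeet⟩ := flag_SpF (m := m) (k := k) (by omega) (isSpF_sch m k Λ)
      (isSpF_sch m (k + 1) Λ)
    have h3 : (schSpF m k Λ).Good :=
      good_of_flag f h1 (finitePresentation_OO m k Λ) hspan n a hmeet
    exact ⟨h3, Flagged.flag _ _ h3 ⟨f⟩ h2⟩

theorem SpF_zero (m : ℕ) (R : Type) [CommRing R] : SpF m 0 R = ⊤ := by
  rw [eq_top_iff]
  intro g _
  exact ⟨fun i hi => absurd hi (Nat.not_lt_zero _), fun i hi => absurd hi (Nat.not_lt_zero _)⟩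

end Pool.Agent.Helper6.OCK
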