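import Pool.Agent.Helper72.OC.SpDefs

/-!
# OC, block K3a: symplectic transvections
-/

set_option autoImplicit false

namespace Pool.Agent.Helper6.OCK

open Matrix
open Pool.Agent.Helper72.OC

variable {m k : ℕ} {R : Type} [CommRing R]

/-- the symplectic form -/
def om (x y : Fin m ⊕ Fin m → R) : R := (J (Fin m) R *ᵥ y) ⬝ᵥ x

theorem J_mulVec_inl (y : Fin m ⊕ Fin m → R) (i : Fin m) :
    (J (Fin m) R *ᵥ y) (.inl i) = - y (.inr i) := by
  simp [J, mulVec, dotProduct, Fintype.sum_sum_type, Matrix.one_apply]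

theorem J_mulVec_inr (y : Fin m ⊕ Fin m → R) (i : Fin m) :
    (J (Fin m) R *ᵥ y) (.inr i) = y (.inl i) := by
  simp [J, mulVec, dotProduct, Fintype.sum_sum_type, Matrix.one_apply]

theorem om_eq (x y : Fin m ⊕ Fin m → R) :
    om x y = ∑ i, (x (.inr i) * y (.inl i) - x (.inl i) * y (.inr i)) := by
  rw [om, dotProduct, Fintype.sum_sum_type]
  simp only [J_mulVec_inl, J_mulVec_inr]
  rw [← Finset.sum_add_distrib]
  refine Finset.sum_congr rfl fun i _ => ?_
  ring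

theorem om_self (x : Fin m ⊕ Fin m → R) : om x x = 0 := by
  rw [om_eq]
  refine Finset.sum_eq_zero fun i _ => ?_
  ring

theorem om_sub (x y z : Fin m ⊕ Fin m → R) : om x (y - z) = om x y - om x z := by
  rw [om, mulVec_sub, sub_dotProduct]
  rfl

theorem om_mulVec (g : Matrix.symplecticGroup (Fin m) R) (x y : Fin m ⊕ Fin m → R) :
    om (g.1 *ᵥ x) (g.1 *ᵥ y) = om x y := by
  have h : g.1ᵀ * J (Fin m) R * g.1 = J (Fin m) R := SymplecticGroup.mem_iff'.1 g.2
  rw [om, om, dotProduct_mulVec, ← mulVec_transpose, mulVec_mulVec, mulVec_mulVec, h]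

/-- the matrix of a symplectic transvection -/
def tvM (a : Fin m ⊕ Fin m → R) (c : R) : Matrix (Fin m ⊕ Fin m) (Fin m ⊕ Fin m) R :=
  1 + c • vecMulVec a (J (Fin m) R *ᵥ a)

theorem tvM_mem (a : Fin m ⊕ Fin m → R) (c : R) : tvM a c ∈ Matrix.symplecticGroup (Fin m) R := by
  have h1 : J (Fin m) R *ᵥ (J (Fin m) R *ᵥ a) = - a := by
    rw [mulVec_mulVec, J_squared, neg_mulVec, one_mulVec]
  have h2 : (J (Fin m) R *ᵥ a) ᵥ* J (Fin m) R = a := by
    have h3 : (J (Fin m) R *ᵥ a) ᵥ* (J (Fin m) R)ᵀ = - a := by rw [vecMul_transpose, h1]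
    rw [J_transpose, vecMul_neg] at h3
    exact neg_injective h3
  have h4 : (J (Fin m) R *ᵥ a) ⬝ᵥ a = 0 := om_self a
  rw [SymplecticGroup.mem_iff, tvM]
  simp only [transpose_add, transpose_one, transpose_smul, transpose_vecMulVec, add_mul, mul_add,
    one_mul, mul_one, Matrix.smul_mul, Matrix.mul_smul, mul_vecMulVec, h1, neg_vecMulVec]
  have h5 : a ⬝ᵥ (J (Fin m) R *ᵥ a) = 0 := by rw [dotProduct_comm, h4]
  rw [vecMulVec_mul, h2, smul_mulVec, vecMulVec_mulVec, h5]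
  simp

/-- the symplectic transvection `x ↦ x + c ω(x, a) a` -/
def tv (a : Fin m ⊕ Fin m → R) (c : R) : Matrix.symplecticGroup (Fin m) R := ⟨tvM a c, tvM_mem a c⟩

theorem tv_mulVec (a x : Fin m ⊕ Fin m → R) (c : R) :
    (tv a c).1 *ᵥ x = x + (c * om x a) • a := by
  show (1 + c • vecMulVec a (J (Fin m) R *ᵥ a)) *ᵥ x = _
  rw [add_mulVec, one_mulVec, smul_mulVec, vecMulVec_mulVec, om]
  funext i
  simp only [Pi.add_apply, Pi.smul_apply, MulOpposite.smul_eq_mul_unop, MulOpposite.unop_op,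
    smul_eq_mul]
  ring

theorem tv_map {x y : Fin m ⊕ Fin m → R} {c : R} (h : c * om x y = 1) :
    (tv (y - x) c).1 *ᵥ x = y := by
  rw [tv_mulVec, om_sub, om_self, sub_zero, h, one_smul, add_sub_cancel]

/-- the basis vector `e_i` -/
def ee (R : Type) [CommRing R] (i : Fin m) : Fin m ⊕ Fin m → R := Pi.single (.inl i) 1

theorem mulVec_ee (M : Matrix (Fin m ⊕ Fin m) (Fin m ⊕ Fin m) R) (i : Fin m)
    (a : Fin m ⊕ Fin m) : (M *ᵥ ee R i) a = M a (.inl i) := by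
  rw [ee, mulVec_single_one]
  rfl

theorem om_ee_left (i : Fin m) (y : Fin m ⊕ Fin m → R) : om (ee R i) y = - y (.inr i) := by
  rw [om, ee, dotProduct_single_one, J_mulVec_inl]

theorem om_ee_right (i : Fin m) (x : Fin m ⊕ Fin m → R) : om x (ee R i) = x (.inr i) := by
  rw [om_eq, Finset.sum_eq_single i]
  · simp [ee]
  · intro j _ hj
    simp [ee, hj]
  · intro h
    exact absurd (Finset.mem_univ _) h

/-- the index of a basis vector -/
def idx : Fin m ⊕ Fin m → ℕ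
  | .inl i => i
  | .inr i => i

variable (k)

/-- combinations of the `e_i`, `i < k` -/
def Lo (x : Fin m ⊕ Fin m → R) : Prop :=
  (∀ i : Fin m, k ≤ (i : ℕ) → x (.inl i) = 0) ∧ ∀ i : Fin m, x (.inr i) = 0

/-- combinations of the `e_i`, `f_i`, `k ≤ i` -/
def Hi (x : Fin m ⊕ Fin m → R) : Prop := ∀ a, idx a < k → x a = 0

variable {k}

theorem flagStab_iff {g : Matrix (Fin m ⊕ Fin m) (Fin m ⊕ Fin m) R} :
    FlagStab m k g ↔ ∀ i : Fin m, (i : ℕ) < k → Lo (i + 1) (g *ᵥ ee R i) := by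
  simp only [FlagStab, Lo, mulVec_ee]
  rfl

theorem Lo.mono {k' : ℕ} (h : k ≤ k') {x : Fin m ⊕ Fin m → R} (hx : Lo k x) : Lo k' x :=
  ⟨fun i hi => hx.1 i (h.trans hi), hx.2⟩

theorem Lo.add {x y : Fin m ⊕ Fin m → R} (hx : Lo k x) (hy : Lo k y) : Lo k (x + y) :=
  ⟨fun i hi => by rw [Pi.add_apply, hx.1 i hi, hy.1 i hi, add_zero],
    fun i => by rw [Pi.add_apply, hx.2 i, hy.2 i, add_zero]⟩

theorem Lo.sub {x y : Fin m ⊕ Fin m → R} (hx : Lo k x) (hy : Lo k y) : Lo k (x - y) :=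
  ⟨fun i hi => by rw [Pi.sub_apply, hx.1 i hi, hy.1 i hi, sub_zero],
    fun i => by rw [Pi.sub_apply, hx.2 i, hy.2 i, sub_zero]⟩

theorem Lo.smul (c : R) {x : Fin m ⊕ Fin m → R} (hx : Lo k x) : Lo k (c • x) :=
  ⟨fun i hi => by rw [Pi.smul_apply, hx.1 i hi, smul_zero],
    fun i => by rw [Pi.smul_apply, hx.2 i, smul_zero]⟩

theorem Lo.ee {i : Fin m} (h : (i : ℕ) < k) : Lo k (ee R i) := by
  refine ⟨fun j hj => ?_, fun j => ?_⟩
  · rw [OCK.ee, Pi.single_apply, if_neg]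
    intro h1
    rw [Sum.inl.injEq] at h1
    subst h1
    omega
  · simp [OCK.ee]

theorem Lo.mulVec {g : Matrix (Fin m ⊕ Fin m) (Fin m ⊕ Fin m) R} (hg : FlagStab m k g)
    {x : Fin m ⊕ Fin m → R} (hx : Lo k x) : Lo k (g *ᵥ x) := by
  have key : ∀ a : Fin m ⊕ Fin m, (∀ t : Fin m, (t : ℕ) < k → g a (.inl t) = 0) →
      (g *ᵥ x) a = 0 := by
    intro a ha
    rw [Matrix.mulVec, dotProduct]
    refine Finset.sum_eq_zero fun t _ => ?_
    rcases t with t | t
    · rcases lt_or_ge (t : ℕ) k with ht | ht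
      · rw [ha t ht, zero_mul]
      · rw [hx.1 t ht, mul_zero]
    · rw [hx.2 t, mul_zero]
  refine ⟨fun i hi => key _ fun t ht => ?_, fun i => key _ fun t ht => ?_⟩
  · exact (hg t ht).1 i (Fin.lt_def.2 (lt_of_lt_of_le ht hi))
  · exact (hg t ht).2 i

theorem mulVec_inv_mulVec (g : Matrix.symplecticGroup (Fin m) R) (x : Fin m ⊕ Fin m → R) :
    (g⁻¹).1 *ᵥ (g.1 *ᵥ x) = x := by
  have h : (g⁻¹).1 * g.1 = 1 := congrArg Subtype.val (inv_mul_cancel g)
  rw [mulVec_mulVec, h, one_mulVec]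

theorem mem_SpF {g : Matrix.symplecticGroup (Fin m) R} :
    g ∈ SpF m k R ↔ FlagStab m k g.1 ∧ FlagStab m k (g⁻¹).1 := Iff.rfl

theorem mem_SpF_of_fix {g : Matrix.symplecticGroup (Fin m) R}
    (h : ∀ i : Fin m, (i : ℕ) < k → g.1 *ᵥ ee R i = ee R i) : g ∈ SpF m k R := by
  refine mem_SpF.2 ⟨flagStab_iff.2 fun i hi => ?_, flagStab_iff.2 fun i hi => ?_⟩
  · rw [h i hi]
    exact Lo.ee (Nat.lt_succ_self _)
  · have h1 := mulVec_inv_mulVec g (ee R i)
    rw [h i hi] at h1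
    rw [h1]
    exact Lo.ee (Nat.lt_succ_self _)

theorem tv_mem {a : Fin m ⊕ Fin m → R} (ha : Hi k a) (c : R) : tv a c ∈ SpF m k R := by
  refine mem_SpF_of_fix fun i hi => ?_
  rw [tv_mulVec, om_ee_left, ha (.inr i) hi]
  simp

/-- an isotropic coordinate vanishes -/
theorem inr_eq_zero {g : Matrix.symplecticGroup (Fin m) R} (hg : g ∈ SpF m k R) (o i : Fin m)
    (hi : (i : ℕ) < k) : g.1 (.inr i) (.inl o) = 0 := by
  have h1 : om (ee R i) (g.1 *ᵥ ee R o) = - g.1 (.inr i) (.inl o) := by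
    rw [om_ee_left, mulVec_ee]
  have h2 : g.1 *ᵥ ((g⁻¹).1 *ᵥ ee R i) = ee R i := by
    have h := mulVec_inv_mulVec g⁻¹ (ee R i)
    rwa [inv_inv] at h
  rw [← h2, om_mulVec, om_ee_right] at h1
  have h3 : Lo (i + 1) ((g⁻¹).1 *ᵥ ee R i) := flagStab_iff.1 (mem_SpF.1 hg).2 i hi
  rw [h3.2 o] at h1
  exact neg_eq_zero.1 h1.symm

theorem SpF_mono {k' : ℕ} (h : k ≤ k') (R : Type) [CommRing R] : SpF m k' R ≤ SpF m k R :=
  fun _ hg => ⟨fun i hi => hg.1 i (hi.trans_le h), fun i hi => hg.2 i (hi.trans_le h)⟩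

theorem flagStab_succ {o : Fin m} (ho : (o : ℕ) = k)
    {g : Matrix (Fin m ⊕ Fin m) (Fin m ⊕ Fin m) R} (h1 : FlagStab m k g)
    (h2 : Lo (k + 1) (g *ᵥ ee R o)) : FlagStab m (k + 1) g := by
  rw [flagStab_iff] at h1 ⊢
  intro i hi
  rcases lt_or_ge (i : ℕ) k with h | h
  · exact h1 i h
  · have h3 : i = o := Fin.ext (by omega)
    rw [h3, ho]
    exact h2

/-- The criterion for the next group of the flag. -/
theorem mem_SpF_succ {o : Fin m} (ho : (o : ℕ) = k) {q : Matrix.symplecticGroup (Fin m) R}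
    (hq : q ∈ SpF m k R) (c : Rˣ) (y : Fin m ⊕ Fin m → R) (hy : Lo k y)
    (h : q.1 *ᵥ ee R o = y + (c : R) • ee R o) : q ∈ SpF m (k + 1) R := by
  refine mem_SpF.2 ⟨flagStab_succ ho (mem_SpF.1 hq).1 ?_, flagStab_succ ho (mem_SpF.1 hq).2 ?_⟩
  · rw [h]
    exact (hy.mono (Nat.le_succ k)).add ((Lo.ee (by omega)).smul _)
  · have h1 : (q⁻¹).1 *ᵥ (q.1 *ᵥ ee R o) = (q⁻¹).1 *ᵥ (y + (c : R) • ee R o) := by rw [h]
    rw [mulVec_inv_mulVec, mulVec_add, mulVec_smul] at h1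
    have h2 : (q⁻¹).1 *ᵥ ee R o = ((c⁻¹ : Rˣ) : R) • (ee R o - (q⁻¹).1 *ᵥ y) := by
      have h3 : ee R o - (q⁻¹).1 *ᵥ y = (c : R) • ((q⁻¹).1 *ᵥ ee R o) := by
        rw [sub_eq_iff_eq_add', ← h1]
      rw [h3, smul_smul, Units.inv_mul, one_smul]
    rw [h2]
    exact ((Lo.ee (by omega)).sub ((hy.mulVec (mem_SpF.1 hq).2).mono (Nat.le_succ k))).smul _

/-! ### the sections -/

/-- the first intermediate vector -/
def z1 (R : Type) [CommRing R] (o : Fin m) (j : Fin m ⊕ Fin m) : Fin m ⊕ Fin m → R :=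
  fun a => if a = .inr o ∨ a = j then 1 else 0

/-- the second intermediate vector: the dual basis vector of `j` -/
def z2 (R : Type) [CommRing R] (j : Fin m ⊕ Fin m) : Fin m ⊕ Fin m → R := Pi.single j.swap 1

/-- the sign of `j` -/
def ep (R : Type) [CommRing R] (j : Fin m ⊕ Fin m) : R := Sum.elim (fun _ => -1) (fun _ => 1) j

theorem ep_mul_self (j : Fin m ⊕ Fin m) : ep R j * ep R j = 1 := by
  rcases j with j | j <;> simp [ep]

theorem om_z1 (o : Fin m) (j : Fin m ⊕ Fin m) : om (ee R o) (z1 R o j) = -1 := by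
  rw [om_ee_left, z1, if_pos (Or.inl rfl)]

theorem om_z2 (x : Fin m ⊕ Fin m → R) (j : Fin m ⊕ Fin m) : om x (z2 R j) = ep R j * x j := by
  have h : J (Fin m) R *ᵥ z2 R j = Pi.single j (ep R j) := by
    funext a
    rcases j with j | j <;> rcases a with a | a
    · rw [J_mulVec_inl]
      simp only [z2, Sum.swap_inl, ep, Sum.elim_inl, Pi.single_apply, Sum.inr.injEq, Sum.inl.injEq]
      split_ifs <;> simp
    · rw [J_mulVec_inr]
      simp [z2, ep]
    · rw [J_mulVec_inl]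
      simp [z2, ep]
    · rw [J_mulVec_inr]
      simp only [z2, Sum.swap_inr, ep, Sum.elim_inr, Pi.single_apply, Sum.inr.injEq, Sum.inl.injEq]
  rw [om, h, single_dotProduct]

theorem om_z2_left (y : Fin m ⊕ Fin m → R) (j : Fin m ⊕ Fin m) :
    om (z2 R j) y = - (ep R j * y j) := by
  have h : om (z2 R j) y = - om y (z2 R j) := by
    rw [om_eq, om_eq, ← Finset.sum_neg_distrib]
    refine Finset.sum_congr rfl fun i _ => ?_
    ring
  rw [h, om_z2]

/-- the section: an element which maps `e_o` to `v`, if `v_j = 1` -/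
def sec (o : Fin m) (j : Fin m ⊕ Fin m) (v : Fin m ⊕ Fin m → R) : Matrix.symplecticGroup (Fin m) R :=
  tv (v - z2 R j) (- ep R j) * (tv (z2 R j - z1 R o j) (ep R j) * tv (z1 R o j - ee R o) (-1))

theorem sec_mulVec (o : Fin m) (j : Fin m ⊕ Fin m) (v : Fin m ⊕ Fin m → R) (hv : v j = 1) :
    (sec o j v).1 *ᵥ ee R o = v := by
  have h1 : (sec o j v).1 *ᵥ ee R o = (tv (v - z2 R j) (- ep R j)).1 *ᵥ
      ((tv (z2 R j - z1 R o j) (ep R j)).1 *ᵥ ((tv (z1 R o j - ee R o) (-1)).1 *ᵥ ee R o)) := by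
    rw [mulVec_mulVec, mulVec_mulVec, Matrix.mul_assoc]
    rfl
  rw [h1, tv_map, tv_map, tv_map]
  · rw [om_z2_left, hv, mul_one, neg_mul_neg, ep_mul_self]
  · rw [om_z2, z1, if_pos (Or.inr rfl), mul_one, ep_mul_self]
  · rw [om_z1, neg_mul_neg, one_mul]

theorem Hi.sub {x y : Fin m ⊕ Fin m → R} (hx : Hi k x) (hy : Hi k y) : Hi k (x - y) :=
  fun a ha => by rw [Pi.sub_apply, hx a ha, hy a ha, sub_zero]

theorem sec_mem {o : Fin m} (ho : (o : ℕ) = k) {j : Fin m ⊕ Fin m} (hj : k ≤ idx j)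
    {v : Fin m ⊕ Fin m → R} (hv : Hi k v) : sec o j v ∈ SpF m k R := by
  have h1 : Hi k (z1 R o j) := by
    intro a ha
    rw [z1, if_neg]
    rintro (rfl | rfl)
    · exact absurd ha (by simp only [idx]; omega)
    · omega
  have h2 : Hi k (z2 R j) := by
    intro a ha
    rw [z2, Pi.single_apply, if_neg]
    rintro rfl
    rcases j with j | j
    · exact absurd ha (by simp only [idx, Sum.swap_inl] at hj ⊢; omega)
    · exact absurd ha (by simp only [idx, Sum.swap_inr] at hj ⊢; omega)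
  have h3 : Hi k (ee R o) := by
    intro a ha
    rw [ee, Pi.single_apply, if_neg]
    rintro rfl
    exact absurd ha (by simp only [idx]; omega)
  exact mul_mem (tv_mem (hv.sub h2) _) (mul_mem (tv_mem (h2.sub h1) _) (tv_mem (h1.sub h3) _))

theorem map_tv {R' : Type} [CommRing R'] (f : R →+* R') (a : Fin m ⊕ Fin m → R) (c : R) :
    (tv a c).1.map f = (tv (fun i => f (a i)) (f c)).1 := by
  have h : J (Fin m) R' *ᵥ (fun i => f (a i)) = fun i => f ((J (Fin m) R *ᵥ a) i) := by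
    funext i
    rcases i with i | i
    · rw [J_mulVec_inl, J_mulVec_inl, map_neg]
    · rw [J_mulVec_inr, J_mulVec_inr]
  ext i j
  show f (((1 : Matrix (Fin m ⊕ Fin m) (Fin m ⊕ Fin m) R) + c • vecMulVec a (J (Fin m) R *ᵥ a)) i j)
    = ((1 : Matrix (Fin m ⊕ Fin m) (Fin m ⊕ Fin m) R') +
      f c • vecMulVec (fun i => f (a i)) (J (Fin m) R' *ᵥ fun i => f (a i))) i j
  rw [h]
  simp only [Matrix.add_apply, Matrix.smul_apply, vecMulVec_apply, smul_eq_mul, map_add, map_mul,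
    Matrix.one_apply]
  split_ifs <;> simp

theorem map_sec {R' : Type} [CommRing R'] (f : R →+* R') (o : Fin m) (j : Fin m ⊕ Fin m)
    (v : Fin m ⊕ Fin m → R) : (sec o j v).1.map f = (sec o j fun i => f (v i)).1 := by
  have h1 : ∀ x y : Fin m ⊕ Fin m → R, (fun i => f ((x - y) i)) = (fun i => f (x i)) -
      fun i => f (y i) := fun x y => by
    funext i
    simp
  have h2 : (fun i => f (z1 R o j i)) = z1 R' o j := by
    funext i
    simp only [z1]
    split_ifs <;> simp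
  have h3 : (fun i => f (z2 R j i)) = z2 R' j := by
    funext i
    simp only [z2, Pi.single_apply]
    split_ifs <;> simp
  have h4 : (fun i => f (ee R o i)) = ee R' o := by
    funext i
    simp only [ee, Pi.single_apply]
    split_ifs <;> simp
  have h5 : f (ep R j) = ep R' j := by
    rcases j with j | j <;> simp [ep]
  have h6 : (sec o j v).1 = (tv (v - z2 R j) (- ep R j)).1 *
    ((tv (z2 R j - z1 R o j) (ep R j)).1 * (tv (z1 R o j - ee R o) (-1)).1) := rfl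
  rw [h6, Matrix.map_mul, Matrix.map_mul, map_tv, map_tv, map_tv, h1, h1, h1, h2, h3, h4,
    map_neg, map_neg, h5, map_one]
  rfl

end Pool.Agent.Helper6.OCK
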